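import Mathlib

/-!
# MP_7875f2_co : saturation numbers of even cycles in complete bipartite graphs

We disprove the conjectured formula
`sat(K_{n1,n2}, C_{2l}) = n1 + n2 + l^2 - 3 l + 1` (for all `l >= 4`, `n1, n2 >= l + 2`),
by showing that `sat(K_{n1,n2}, C_8) <= n1 + n2 + 3` for all `n1, n2 >= 6`
(the formula predicts `n1 + n2 + 5`).
-/

namespace Pool.Agent.Results.MP_7875f2_co.EvenCycleSatDisproof

open SimpleGraph

/-- `H` is a spanning subgraph of `G` (same vertex set, `H <= G`) which is `F`-saturated relative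
to `G`: it contains no copy of `F`, but adding any edge of `G` that is not in `H` creates a copy
of `F`. -/
def IsSaturatedIn {W V : Type} (F : SimpleGraph W) (G H : SimpleGraph V) : Prop :=
  H ≤ G ∧ ¬ (F ⊑ H) ∧ ∀ e ∈ G.edgeSet, e ∉ H.edgeSet → F ⊑ (H ⊔ SimpleGraph.fromEdgeSet {e})

/-- The saturation number: the least number of edges of a spanning subgraph of `G` which is
`F`-saturated relative to `G`. -/
noncomputable def satNumber {W V : Type} (G : SimpleGraph V) (F : SimpleGraph W) : ℕ :=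
  sInf {m : ℕ | ∃ H : SimpleGraph V, IsSaturatedIn F G H ∧ H.edgeSet.ncard = m}

/-- Adjacency matrix of the small bipartite graph with 15 edges. -/
def A (a b : Fin 6) : Bool :=
  match a.val, b.val with
  | 0, 1 => true
  | 1, 0 => true
  | 1, 3 => true
  | 2, 0 => true
  | 2, 2 => true
  | 2, 4 => true
  | 3, 0 => true
  | 3, 2 => true
  | 3, 3 => true
  | 3, 5 => true
  | 4, 0 => true
  | 4, 1 => true
  | 4, 2 => true
  | 5, 0 => true
  | 5, 5 => true
  | _, _ => false

set_option synthInstance.maxSize 5000 in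
set_option maxRecDepth 100000 in
lemma no_cycle : ∀ x0 y0 : Fin 6, A x0 y0 = true → ∀ x1, A x1 y0 = true → x1 ≠ x0 →
    ∀ y1, A x1 y1 = true → y1 ≠ y0 → ∀ x2, A x2 y1 = true → x2 ≠ x1 → x2 ≠ x0 →
    ∀ y2, A x2 y2 = true → y2 ≠ y1 → y2 ≠ y0 → ∀ x3, A x3 y2 = true → x3 ≠ x2 → x3 ≠ x1 →
    x3 ≠ x0 → ∀ y3, A x3 y3 = true → y3 ≠ y2 → y3 ≠ y1 → y3 ≠ y0 → A x0 y3 = true → False := by
  decide +kernel

set_option synthInstance.maxSize 5000 in
set_option maxRecDepth 100000 in
lemma long_path : ∀ x0 y3 : Fin 6, A x0 y3 = false → ∃ y0, A x0 y0 = true ∧ y0 ≠ y3 ∧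
    ∃ x1, A x1 y0 = true ∧ x1 ≠ x0 ∧
    ∃ y1, A x1 y1 = true ∧ y1 ≠ y0 ∧ y1 ≠ y3 ∧ ∃ x2, A x2 y1 = true ∧ x2 ≠ x1 ∧ x2 ≠ x0 ∧
    ∃ y2, A x2 y2 = true ∧ y2 ≠ y1 ∧ y2 ≠ y0 ∧ y2 ≠ y3 ∧ ∃ x3, A x3 y2 = true ∧ x3 ≠ x2 ∧
    x3 ≠ x1 ∧ x3 ≠ x0 ∧ A x3 y3 = true := by
  decide +kernel

/-- Retraction of the left side onto six vertices; the extra vertices go to the leaf `0`. -/
def r1 {n : ℕ} (i : Fin n) : Fin 6 := if h : i.val < 6 then ⟨i.val, h⟩ else 0

/-- Retraction of the right side onto six vertices; the extra vertices go to the leaf `4`. -/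
def r2 {n : ℕ} (j : Fin n) : Fin 6 := if h : j.val < 6 then ⟨j.val, h⟩ else 4

/-- The saturated graph with `n1 + n2 + 3` edges: the small graph with its two leaves
duplicated. -/
def H (n1 n2 : ℕ) : SimpleGraph (Fin n1 ⊕ Fin n2) where
  Adj u v := match u, v with
    | .inl i, .inr j => A (r1 i) (r2 j) = true
    | .inr j, .inl i => A (r1 i) (r2 j) = true
    | _, _ => False
  symm := ⟨by
    rintro (i | j) (i' | j') h
    · exact h
    · exact h
    · exact h
    · exact h⟩
  loopless := ⟨by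
    rintro (i | j) h
    · exact h
    · exact h⟩

lemma H_adj_lr {n1 n2 : ℕ} (i : Fin n1) (j : Fin n2) :
    (H n1 n2).Adj (.inl i) (.inr j) ↔ A (r1 i) (r2 j) = true := Iff.rfl

lemma H_adj_rl {n1 n2 : ℕ} (i : Fin n1) (j : Fin n2) :
    (H n1 n2).Adj (.inr j) (.inl i) ↔ A (r1 i) (r2 j) = true := Iff.rfl

lemma A_zero : ∀ y : Fin 6, A 0 y = true → y = 1 := by decide

lemma A_four : ∀ x : Fin 6, A x 4 = true → x = 2 := by decide

lemma r1_inj {n : ℕ} {x x' : Fin n} (h : r1 x ≠ 0) (e : r1 x = r1 x') : x = x' := by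
  unfold r1 at *
  split_ifs at * with h1 h2
  · simpa [Fin.ext_iff] using e
  · exact absurd e h
  · exact absurd rfl h
  · exact absurd rfl h

lemma r2_inj {n : ℕ} {y y' : Fin n} (h : r2 y ≠ 4) (e : r2 y = r2 y') : y = y' := by
  unfold r2 at *
  split_ifs at * with h1 h2
  · simpa [Fin.ext_iff] using e
  · exact absurd e h
  · exact absurd rfl h
  · exact absurd rfl h

lemma nz1 {n1 n2 : ℕ} {x : Fin n1} {y y' : Fin n2} (h : A (r1 x) (r2 y) = true)
    (h' : A (r1 x) (r2 y') = true) (hne : y ≠ y') : r1 x ≠ 0 := by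
  intro h0
  rw [h0] at h h'
  have e1 := A_zero _ h
  have e2 := A_zero _ h'
  exact hne (r2_inj (by rw [e1]; decide) (e1.trans e2.symm))

lemma nz2 {n1 n2 : ℕ} {x x' : Fin n1} {y : Fin n2} (h : A (r1 x) (r2 y) = true)
    (h' : A (r1 x') (r2 y) = true) (hne : x ≠ x') : r2 y ≠ 4 := by
  intro h0
  rw [h0] at h h'
  have e1 := A_four _ h
  have e2 := A_four _ h'
  exact hne (r1_inj (by rw [e1]; decide) (e1.trans e2.symm))

lemma no_lift {n1 n2 : ℕ} {x0 x1 x2 x3 : Fin n1} {y0 y1 y2 y3 : Fin n2}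
    (hx01 : x0 ≠ x1) (hx02 : x0 ≠ x2) (hx03 : x0 ≠ x3) (hx12 : x1 ≠ x2) (hx13 : x1 ≠ x3)
    (hx23 : x2 ≠ x3)
    (hy01 : y0 ≠ y1) (hy02 : y0 ≠ y2) (hy03 : y0 ≠ y3) (hy12 : y1 ≠ y2) (hy13 : y1 ≠ y3)
    (hy23 : y2 ≠ y3)
    (e00 : A (r1 x0) (r2 y0) = true) (e10 : A (r1 x1) (r2 y0) = true)
    (e11 : A (r1 x1) (r2 y1) = true) (e21 : A (r1 x2) (r2 y1) = true)
    (e22 : A (r1 x2) (r2 y2) = true) (e32 : A (r1 x3) (r2 y2) = true)
    (e33 : A (r1 x3) (r2 y3) = true) (e03 : A (r1 x0) (r2 y3) = true) : False := by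
  have X1 : r1 x1 ≠ 0 := nz1 e10 e11 hy01
  have X2 : r1 x2 ≠ 0 := nz1 e21 e22 hy12
  have X3 : r1 x3 ≠ 0 := nz1 e32 e33 hy23
  have Y1 : r2 y1 ≠ 4 := nz2 e11 e21 hx12
  have Y2 : r2 y2 ≠ 4 := nz2 e22 e32 hx23
  have Y3 : r2 y3 ≠ 4 := nz2 e33 e03 hx03.symm
  exact no_cycle _ _ e00 _ e10 (fun e => hx01 (r1_inj X1 e).symm) _ e11
    (fun e => hy01 (r2_inj Y1 e).symm) _ e21 (fun e => hx12 (r1_inj X2 e).symm)
    (fun e => hx02 (r1_inj X2 e).symm) _ e22 (fun e => hy12 (r2_inj Y2 e).symm)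
    (fun e => hy02 (r2_inj Y2 e).symm) _ e32 (fun e => hx23 (r1_inj X3 e).symm)
    (fun e => hx13 (r1_inj X3 e).symm) (fun e => hx03 (r1_inj X3 e).symm) _ e33
    (fun e => hy23 (r2_inj Y3 e).symm) (fun e => hy13 (r2_inj Y3 e).symm)
    (fun e => hy03 (r2_inj Y3 e).symm) e03

lemma adj_left {n1 n2 : ℕ} {i : Fin n1} {v : Fin n1 ⊕ Fin n2} (h : (H n1 n2).Adj (.inl i) v) :
    ∃ j, v = .inr j := by
  rcases v with i' | j
  · exact False.elim h
  · exact ⟨j, rfl⟩

lemma adj_right {n1 n2 : ℕ} {j : Fin n2} {v : Fin n1 ⊕ Fin n2} (h : (H n1 n2).Adj (.inr j) v) :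
    ∃ i, v = .inl i := by
  rcases v with i | j'
  · exact ⟨i, rfl⟩
  · exact False.elim h

lemma no_cycle_from_left {n1 n2 : ℕ} (g : Fin 8 → Fin n1 ⊕ Fin n2) (hg : Function.Injective g)
    (hadj : ∀ i, (H n1 n2).Adj (g i) (g (i + 1))) {x0 : Fin n1} (h0 : g 0 = .inl x0) : False := by
  have a0 := hadj 0
  rw [h0] at a0
  obtain ⟨y0, h1⟩ := adj_left a0
  have a1 := hadj 1
  simp only [Fin.isValue, Fin.reduceAdd, zero_add] at h1 a1
  rw [h1] at a1
  obtain ⟨x1, h2⟩ := adj_right a1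
  have a2 := hadj 2
  simp only [Fin.isValue, Fin.reduceAdd] at h2 a2
  rw [h2] at a2
  obtain ⟨y1, h3⟩ := adj_left a2
  have a3 := hadj 3
  simp only [Fin.isValue, Fin.reduceAdd] at h3 a3
  rw [h3] at a3
  obtain ⟨x2, h4⟩ := adj_right a3
  have a4 := hadj 4
  simp only [Fin.isValue, Fin.reduceAdd] at h4 a4
  rw [h4] at a4
  obtain ⟨y2, h5⟩ := adj_left a4
  have a5 := hadj 5
  simp only [Fin.isValue, Fin.reduceAdd] at h5 a5
  rw [h5] at a5
  obtain ⟨x3, h6⟩ := adj_right a5
  have a6 := hadj 6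
  simp only [Fin.isValue, Fin.reduceAdd] at h6 a6
  rw [h6] at a6
  obtain ⟨y3, h7⟩ := adj_left a6
  have a7 := hadj 7
  simp only [Fin.isValue, Fin.reduceAdd, zero_add] at a0 h7 a7
  rw [h1] at a0
  rw [h2] at a1
  rw [h3] at a2
  rw [h4] at a3
  rw [h5] at a4
  rw [h6] at a5
  rw [h7] at a6 a7
  rw [h0] at a7
  have key : ∀ i j : Fin 8, i ≠ j → g i ≠ g j := fun i j hij e => hij (hg e)
  have k02 := key 0 2 (by decide)
  have k04 := key 0 4 (by decide)
  have k06 := key 0 6 (by decide)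
  have k24 := key 2 4 (by decide)
  have k26 := key 2 6 (by decide)
  have k46 := key 4 6 (by decide)
  have k13 := key 1 3 (by decide)
  have k15 := key 1 5 (by decide)
  have k17 := key 1 7 (by decide)
  have k35 := key 3 5 (by decide)
  have k37 := key 3 7 (by decide)
  have k57 := key 5 7 (by decide)
  rw [h0, h2] at k02
  rw [h0, h4] at k04
  rw [h0, h6] at k06
  rw [h2, h4] at k24
  rw [h2, h6] at k26
  rw [h4, h6] at k46
  rw [h1, h3] at k13
  rw [h1, h5] at k15
  rw [h1, h7] at k17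
  rw [h3, h5] at k35
  rw [h3, h7] at k37
  rw [h5, h7] at k57
  exact no_lift (fun e => k02 (congrArg _ e)) (fun e => k04 (congrArg _ e))
    (fun e => k06 (congrArg _ e)) (fun e => k24 (congrArg _ e)) (fun e => k26 (congrArg _ e))
    (fun e => k46 (congrArg _ e)) (fun e => k13 (congrArg _ e)) (fun e => k15 (congrArg _ e))
    (fun e => k17 (congrArg _ e)) (fun e => k35 (congrArg _ e)) (fun e => k37 (congrArg _ e))
    (fun e => k57 (congrArg _ e))
    ((H_adj_lr _ _).1 a0) ((H_adj_rl _ _).1 a1) ((H_adj_lr _ _).1 a2) ((H_adj_rl _ _).1 a3)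
    ((H_adj_lr _ _).1 a4) ((H_adj_rl _ _).1 a5) ((H_adj_lr _ _).1 a6) ((H_adj_rl _ _).1 a7)

lemma H_free (n1 n2 : ℕ) : ¬ ((cycleGraph 8) ⊑ (H n1 n2)) := by
  rintro ⟨f⟩
  have hadj : ∀ i : Fin 8, (H n1 n2).Adj (f i) (f (i + 1)) := by
    intro i
    apply f.toHom.map_adj
    have : (cycleGraph (6 + 2)).Adj i (i + 1) := by
      rw [cycleGraph_adj]
      right
      simp
    exact this
  have hinj : Function.Injective f := f.injective
  rcases h0 : f 0 with x0 | y
  · exact no_cycle_from_left (fun i => f i) hinj hadj h0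
  · have a0 := hadj 0
    rw [h0] at a0
    obtain ⟨x, h1⟩ := adj_right a0
    refine no_cycle_from_left (fun i => f (i + 1)) ?_ (fun i => hadj (i + 1)) (x0 := x) ?_
    · intro i j hij
      simpa using hinj hij
    · exact h1

/-- A copy of the cycle on eight vertices from a cyclic sequence of adjacent distinct vertices. -/
lemma cycle_contained {V : Type} {G : SimpleGraph V} (g : Fin 8 → V)
    (hg : Function.Injective g) (hadj : ∀ i, G.Adj (g i) (g (i + 1))) : (cycleGraph 8) ⊑ G := by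
  refine ⟨⟨⟨g, ?_⟩, hg⟩⟩
  intro u v huv
  have h : (cycleGraph (6 + 2)).Adj u v := huv
  rw [cycleGraph_adj] at h
  rcases h with h | h
  · have : u = v + 1 := by
      rw [← h]; simp
    rw [this]
    exact (hadj v).symm
  · have : v = u + 1 := by
      rw [← h]; simp
    rw [this]
    exact hadj u

lemma r1_castLE {n : ℕ} (h : 6 ≤ n) (x : Fin 6) : r1 (Fin.castLE h x) = x := by
  unfold r1
  have : (Fin.castLE h x).val < 6 := x.isLt
  rw [dif_pos this]
  rfl

lemma r2_castLE {n : ℕ} (h : 6 ≤ n) (x : Fin 6) : r2 (Fin.castLE h x) = x := by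
  unfold r2
  have : (Fin.castLE h x).val < 6 := x.isLt
  rw [dif_pos this]
  rfl

lemma H_saturated {n1 n2 : ℕ} (hn1 : 6 ≤ n1) (hn2 : 6 ≤ n2) :
    IsSaturatedIn (cycleGraph 8) (completeBipartiteGraph (Fin n1) (Fin n2)) (H n1 n2) := by
  refine ⟨?_, H_free n1 n2, ?_⟩
  · intro u v huv
    rcases u with i | j <;> rcases v with i' | j'
    · exact False.elim huv
    · simp
    · simp
    · exact False.elim huv
  · intro e he hne
    have key : ∀ (i : Fin n1) (j : Fin n2), s(Sum.inl i, Sum.inr j) ∉ (H n1 n2).edgeSet →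
        (cycleGraph 8) ⊑ ((H n1 n2) ⊔ SimpleGraph.fromEdgeSet {s(Sum.inl i, Sum.inr j)}) := by
      intro i j hij
      rw [SimpleGraph.mem_edgeSet, H_adj_lr] at hij
      have hA : A (r1 i) (r2 j) = false := by simpa using hij
      obtain ⟨y0, h1, n1', x1, h2, n2', y1, h3, n3, n3', x2, h4, n4, n4', y2, h5, n5, n5', n5'',
        x3, h6, n6, n6', n6'', h7⟩ := long_path _ _ hA
      have cx : ∀ x : Fin 6, x ≠ r1 i → Fin.castLE hn1 x ≠ i := by
        intro x hx e
        apply hx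
        rw [← e, r1_castLE]
      have cy : ∀ y : Fin 6, y ≠ r2 j → Fin.castLE hn2 y ≠ j := by
        intro y hy e
        apply hy
        rw [← e, r2_castLE]
      have cc : ∀ x x' : Fin 6, x ≠ x' → Fin.castLE hn1 x ≠ Fin.castLE hn1 x' := by
        intro x x' hx e
        exact hx (Fin.castLE_injective hn1 e)
      have dd : ∀ x x' : Fin 6, x ≠ x' → Fin.castLE hn2 x ≠ Fin.castLE hn2 x' := by
        intro x x' hx e
        exact hx (Fin.castLE_injective hn2 e)
      refine cycle_contained (![Sum.inl i, Sum.inr (Fin.castLE hn2 y0),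
        Sum.inl (Fin.castLE hn1 x1), Sum.inr (Fin.castLE hn2 y1), Sum.inl (Fin.castLE hn1 x2),
        Sum.inr (Fin.castLE hn2 y2), Sum.inl (Fin.castLE hn1 x3), Sum.inr j]) ?_ ?_
      · have a1 := cx x1 n2'
        have a2 := cx x2 n4'
        have a3 := cx x3 n6''
        have a4 := cc _ _ n4
        have a5 := cc _ _ n6
        have a6 := cc _ _ n6'
        have b1 := cy y0 n1'
        have b2 := cy y1 n3'
        have b3 := cy y2 n5''
        have b4 := dd _ _ n3
        have b5 := dd _ _ n5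
        have b6 := dd _ _ n5'
        intro u v huv
        fin_cases u <;> fin_cases v <;>
          simp [a1, a2, a3, a4, a5, a6, b1, b2, b3, b4, b5, b6, a1.symm, a2.symm, a3.symm,
            a4.symm, a5.symm, a6.symm, b1.symm, b2.symm, b3.symm, b4.symm, b5.symm,
            b6.symm] at huv ⊢
      · intro u
        fin_cases u
        · left
          show A (r1 i) (r2 (Fin.castLE hn2 y0)) = true
          rw [r2_castLE]; exact h1
        · left
          show A (r1 (Fin.castLE hn1 x1)) (r2 (Fin.castLE hn2 y0)) = true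
          rw [r2_castLE, r1_castLE]; exact h2
        · left
          show A (r1 (Fin.castLE hn1 x1)) (r2 (Fin.castLE hn2 y1)) = true
          rw [r2_castLE, r1_castLE]; exact h3
        · left
          show A (r1 (Fin.castLE hn1 x2)) (r2 (Fin.castLE hn2 y1)) = true
          rw [r2_castLE, r1_castLE]; exact h4
        · left
          show A (r1 (Fin.castLE hn1 x2)) (r2 (Fin.castLE hn2 y2)) = true
          rw [r2_castLE, r1_castLE]; exact h5
        · left
          show A (r1 (Fin.castLE hn1 x3)) (r2 (Fin.castLE hn2 y2)) = true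
          rw [r2_castLE, r1_castLE]; exact h6
        · left
          show A (r1 (Fin.castLE hn1 x3)) (r2 j) = true
          rw [r1_castLE]; exact h7
        · right
          rw [SimpleGraph.fromEdgeSet_adj]
          constructor
          · show s(Sum.inr j, Sum.inl i) ∈ ({s(Sum.inl i, Sum.inr j)} : Set _)
            rw [Sym2.eq_swap]
            rfl
          · show (Sum.inr j : Fin n1 ⊕ Fin n2) ≠ Sum.inl i
            simp
    induction e using Sym2.ind with
    | _ u v =>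
      rw [SimpleGraph.mem_edgeSet] at he
      rcases u with i | j <;> rcases v with i' | j'
      · simp at he
      · exact key i j' hne
      · rw [Sym2.eq_swap] at hne ⊢
        exact key i' j hne
      · simp at he

lemma H_edges {n1 n2 : ℕ} (hn1 : 6 ≤ n1) (hn2 : 6 ≤ n2) :
    (H n1 n2).edgeSet.ncard ≤ n1 + n2 + 3 := by
  classical
  let S : Finset (Fin n1 × Fin n2) :=
    ((Finset.univ.filter (fun p : Fin 6 × Fin 6 => A p.1 p.2 = true)).image
      (fun p => (Fin.castLE hn1 p.1, Fin.castLE hn2 p.2))) ∪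
    ((Finset.univ : Finset (Fin (n1 - 6))).image
      (fun k => ((⟨k.val + 6, by omega⟩ : Fin n1), (⟨1, by omega⟩ : Fin n2)))) ∪
    ((Finset.univ : Finset (Fin (n2 - 6))).image
      (fun k => ((⟨2, by omega⟩ : Fin n1), (⟨k.val + 6, by omega⟩ : Fin n2))))
  have hS : S.card ≤ n1 + n2 + 3 := by
    have h1 : ((Finset.univ.filter (fun p : Fin 6 × Fin 6 => A p.1 p.2 = true)).image
      (fun p => (Fin.castLE hn1 p.1, Fin.castLE hn2 p.2))).card ≤ 15 := by
      refine Finset.card_image_le.trans ?_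
      decide
    have h2 : ((Finset.univ : Finset (Fin (n1 - 6))).image
      (fun k => ((⟨k.val + 6, by omega⟩ : Fin n1), (⟨1, by omega⟩ : Fin n2)))).card
        ≤ n1 - 6 := by
      refine Finset.card_image_le.trans ?_
      simp
    have h3 : ((Finset.univ : Finset (Fin (n2 - 6))).image
      (fun k => ((⟨2, by omega⟩ : Fin n1), (⟨k.val + 6, by omega⟩ : Fin n2)))).card
        ≤ n2 - 6 := by
      refine Finset.card_image_le.trans ?_
      simp
    have h4 : S.card ≤ 15 + (n1 - 6) + (n2 - 6) := by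
      refine (Finset.card_union_le _ _).trans ?_
      refine Nat.add_le_add ?_ h3
      refine (Finset.card_union_le _ _).trans ?_
      exact Nat.add_le_add h1 h2
    omega
  have hsub : (H n1 n2).edgeSet ⊆ ((S.image (fun p => s(Sum.inl p.1, Sum.inr p.2)) :
      Finset (Sym2 (Fin n1 ⊕ Fin n2))) : Set (Sym2 (Fin n1 ⊕ Fin n2))) := by
    intro e he
    have key : ∀ (i : Fin n1) (j : Fin n2), A (r1 i) (r2 j) = true → (i, j) ∈ S := by
      intro i j hij
      by_cases hi : i.val < 6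
      · by_cases hj : j.val < 6
        · refine Finset.mem_union_left _ (Finset.mem_union_left _ ?_)
          rw [Finset.mem_image]
          have e1 : r1 i = ⟨i.val, hi⟩ := by unfold r1; rw [dif_pos hi]
          have e2 : r2 j = ⟨j.val, hj⟩ := by unfold r2; rw [dif_pos hj]
          rw [e1, e2] at hij
          exact ⟨(⟨i.val, hi⟩, ⟨j.val, hj⟩), by simpa using hij, rfl⟩
        · refine Finset.mem_union_right _ ?_
          rw [Finset.mem_image]
          have e2 : r2 j = 4 := by unfold r2; rw [dif_neg hj]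
          rw [e2] at hij
          have e1 := A_four _ hij
          have e3 : r1 i = ⟨i.val, hi⟩ := by unfold r1; rw [dif_pos hi]
          rw [e3] at e1
          have e4 : i.val = 2 := by
            have := congrArg Fin.val e1
            simpa using this
          refine ⟨⟨j.val - 6, by omega⟩, Finset.mem_univ _, ?_⟩
          refine Prod.ext ?_ ?_
          · exact Fin.ext e4.symm
          · apply Fin.ext
            show j.val - 6 + 6 = j.val
            omega
      · refine Finset.mem_union_left _ (Finset.mem_union_right _ ?_)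
        rw [Finset.mem_image]
        have e1 : r1 i = 0 := by unfold r1; rw [dif_neg hi]
        rw [e1] at hij
        have e2 := A_zero _ hij
        have hj : j.val < 6 := by
          by_contra hj
          have : r2 j = 4 := by unfold r2; rw [dif_neg hj]
          rw [this] at e2
          exact absurd e2 (by decide)
        have e3 : r2 j = ⟨j.val, hj⟩ := by unfold r2; rw [dif_pos hj]
        rw [e3] at e2
        have e4 : j.val = 1 := by
          have := congrArg Fin.val e2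
          simpa using this
        refine ⟨⟨i.val - 6, by omega⟩, Finset.mem_univ _, ?_⟩
        refine Prod.ext ?_ ?_
        · apply Fin.ext
          show i.val - 6 + 6 = i.val
          omega
        · exact Fin.ext e4.symm
    rw [Finset.coe_image]
    induction e using Sym2.ind with
    | _ u v =>
      rw [SimpleGraph.mem_edgeSet] at he
      rcases u with i | j <;> rcases v with i' | j'
      · exact False.elim he
      · exact ⟨(i, j'), key i j' he, rfl⟩
      · exact ⟨(i', j), key i' j he, Sym2.eq_swap⟩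
      · exact False.elim he
  calc (H n1 n2).edgeSet.ncard
      ≤ ((S.image (fun p => s(Sum.inl p.1, Sum.inr p.2)) :
      Finset (Sym2 (Fin n1 ⊕ Fin n2))) : Set (Sym2 (Fin n1 ⊕ Fin n2))).ncard :=
        Set.ncard_le_ncard hsub (Finset.finite_toSet _)
    _ ≤ S.card := by
        rw [Set.ncard_coe_finset]
        exact Finset.card_image_le
    _ ≤ n1 + n2 + 3 := hS

/-- The conjectured formula: for all `l >= 4` and `n1, n2 >= l + 2`,
`sat(K_{n1,n2}, C_{2l}) = n1 + n2 + l^2 - 3 l + 1`. -/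
def ConjecturedFormula : Prop :=
  ∀ l n1 n2 : ℕ, 4 ≤ l → l + 2 ≤ n1 → l + 2 ≤ n2 →
    (satNumber (completeBipartiteGraph (Fin n1) (Fin n2)) (cycleGraph (2 * l)) : ℤ)
      = (n1 : ℤ) + (n2 : ℤ) + (l : ℤ) ^ 2 - 3 * (l : ℤ) + 1

/-- For all `n1, n2 >= 6` there is a `C_8`-saturated spanning subgraph of `K_{n1,n2}` with at most
`n1 + n2 + 3` edges, so `sat(K_{n1,n2}, C_8) <= n1 + n2 + 3 < n1 + n2 + 5`; in particular the
conjectured formula is false (it fails for `l = 4` and all `n1, n2 >= 6`). -/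
theorem result :
    (∀ n1 n2 : ℕ, 6 ≤ n1 → 6 ≤ n2 →
      (∃ H : SimpleGraph (Fin n1 ⊕ Fin n2),
        IsSaturatedIn (cycleGraph 8) (completeBipartiteGraph (Fin n1) (Fin n2)) H ∧
          H.edgeSet.ncard ≤ n1 + n2 + 3) ∧
      satNumber (completeBipartiteGraph (Fin n1) (Fin n2)) (cycleGraph 8) ≤ n1 + n2 + 3) ∧
    ¬ ConjecturedFormula := by
  have main : ∀ n1 n2 : ℕ, 6 ≤ n1 → 6 ≤ n2 →
      (∃ H : SimpleGraph (Fin n1 ⊕ Fin n2),
        IsSaturatedIn (cycleGraph 8) (completeBipartiteGraph (Fin n1) (Fin n2)) H ∧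
          H.edgeSet.ncard ≤ n1 + n2 + 3) ∧
      satNumber (completeBipartiteGraph (Fin n1) (Fin n2)) (cycleGraph 8) ≤ n1 + n2 + 3 := by
    intro n1 n2 hn1 hn2
    refine ⟨⟨H n1 n2, H_saturated hn1 hn2, H_edges hn1 hn2⟩, ?_⟩
    refine (Nat.sInf_le ?_).trans (H_edges hn1 hn2)
    exact ⟨H n1 n2, H_saturated hn1 hn2, rfl⟩
  refine ⟨main, ?_⟩
  intro hconj
  have h := hconj 4 6 6 le_rfl le_rfl le_rfl
  have h2 := (main 6 6 le_rfl le_rfl).2
  have h3 : ((satNumber (completeBipartiteGraph (Fin 6) (Fin 6)) (cycleGraph 8) : ℕ) : ℤ)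
      ≤ ((6 + 6 + 3 : ℕ) : ℤ) := by exact_mod_cast h2
  have h4 : (2 * 4 : ℕ) = 8 := rfl
  rw [h4] at h
  rw [h] at h3
  norm_num at h3

end Pool.Agent.Results.MP_7875f2_co.EvenCycleSatDisproof
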